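import Pool.Agent.H25CC.Cnt
import Pool.Agent.H41N.MD.Law
import Pool.Agent.Y722.HS.Bad

/-!
# The Sato-Tate law of almost all cyclic covers of projective space

Let `m` divide `δ` and let `V` be the cover `w ^ m = F(x)` of `P ^ n`, `n` even, branched along a smooth hypersurface `F = 0` of degree `δ`; for
instance a K3 surface `w ^ 2 = f_6(x, y, z)`. For a prime `p` of good reduction
`#V(F_p) = 1 + p + … + p ^ n + p ^ (n / 2) a_p`, where `a_p` is the trace of Frobenius on the primitive part of `H ^ n(V)(n / 2)`. This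
is the sum of the parts `H_χ` on which the covering group acts by the non-trivial characters `χ` of order dividing `m`, Frobenius maps `H_χ` to another
part unless `χ ^ (p - 1) = 1`, and so `a_p` is the sum of the traces on `gcd(m, p - 1) - 1` parts. The Sato-Tate conjecture for a general `V` (orthogonal
group on the part with `χ ^ 2 = 1`, unitary groups on the pairs of parts `H_χ`, `H_{χ⁻¹}`) predicts that the moments of `z_p = a_p / √(gcd(m, p - 1) - 1)` over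
the primes of each class modulo `m` with `gcd(m, p - 1) > 1` are those of the normal law, up to the order `dim H_χ`.

It is proved, unconditionally, that this is true for almost all `F` for all moments of order at most `δ` if `n ≥ 4`, and at most `δ - 2` if
`n = 2`, with an error `Y ^ (1 / 2 + ε / 2)` for the sum over the primes in any interval below `Y` and in any set of primes. For instance the mean of
`a_p ^ 4` is `3` for almost all K3 surfaces `w ^ 2 = f_6(x, y, z)`. The distribution function of the `z_p` is within `4 / √M` of that of the normal law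
if `2 M` is at most this order.

The same is true for the cyclic covers of schemes `W` of even dimension in `P ^ n` branched along the members of a linear system.

Proof. At most `2 d + 1` points impose independent conditions on the forms of degree `d` unless `d + 2` of them are on a line, so that the moments differ
from those of a sum of independent variables by a sum over the lines (`H41N.MD`). The values of a random form at points of a line are any `d + 1` of them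
independent. For such values the mean of a product of `s` functions differs from the product of the means by at most `(2 B √p) ^ s / p ^ (d + 1)`, if the
Fourier coefficients of the functions are at most `B √p`: the characters that contribute are the relations between the values, which have more than
`d + 1` non-zero coefficients, and there are few of them. The bound for the Fourier coefficients of the powers of the number of the `m`-th roots is
the one of Gauss sums.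
-/

set_option autoImplicit false

namespace Pool.Agent.Results.MP_32ceeb_nt.CyclicCovers

open Finset MeasureTheory ProbabilityTheory MvPolynomial
open Pool.Agent.Y722.HS (Mon form IsSmooth)
open scoped LinearAlgebra.Projectivization

/-- The number of the points of `P ^ n` over the field with `p` elements at which all forms in `S` vanish. -/
noncomputable def points {n : ℕ} (p : ℕ) (S : Set (MvPolynomial (Fin (n + 1)) ℤ)) : ℕ :=
  open scoped Classical in
  if h : p.Prime then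
    haveI : Fact p.Prime := ⟨h⟩
    Nat.card {P : ℙ (ZMod p) (Fin (n + 1) → ZMod p) // ∀ G ∈ S, aeval P.rep G = 0}
  else 0

/-- The number of the points of the cover `w ^ m = F(x)` of `W` over the field with `p` elements: the pairs of a point `[x]` of `W` and a `w` with
`w ^ m = F(x)`. (`x` is a representative of the point; if `m` divides the degree of the form `F` then the number does not depend on it.) -/
noncomputable def coverPoints {n : ℕ} (p : ℕ) (W : Set (MvPolynomial (Fin (n + 1)) ℤ)) (m : ℕ) (F : MvPolynomial (Fin (n + 1)) ℤ) : ℕ :=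
  open scoped Classical in
  if h : p.Prime then
    haveI : Fact p.Prime := ⟨h⟩
    Nat.card {x : ℙ (ZMod p) (Fin (n + 1) → ZMod p) × ZMod p // (∀ G ∈ W, aeval x.1.rep G = 0) ∧ x.2 ^ m = aeval x.1.rep F}
  else 0

/-- The form `∑_j g_j h_j`, where `h_j` is the form of degree `d_j` with the coefficients `t (j, ·)`. -/
noncomputable def member {n : ℕ} {J : Type} [Fintype J] {d : J → ℕ} (g : J → MvPolynomial (Fin (n + 1)) ℤ) (t : (Σ j : J, Mon n (d j)) → ℤ) :
    MvPolynomial (Fin (n + 1)) ℤ :=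
  ∑ j, g j * form fun ν => t ⟨j, ν⟩

/-- The normalised trace `(#V(F_p) - #W(F_p)) / (√(gcd(m, p - 1) - 1) p ^ (D / 2))` of the cover `V` of `W`, `D` the dimension. -/
noncomputable def trace {n : ℕ} (W : Set (MvPolynomial (Fin (n + 1)) ℤ)) (D m : ℕ) (F : MvPolynomial (Fin (n + 1)) ℤ) (p : ℕ) : ℝ :=
  ((coverPoints p W m F : ℝ) - points p W) / (Real.sqrt ((Nat.gcd m (p - 1) : ℝ) - 1) * Real.sqrt p ^ D)

/-- The hypersurface `F = 0` is smooth over the algebraic closure of the field with `p` elements. -/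
def Good {n : ℕ} (F : MvPolynomial (Fin (n + 1)) ℤ) (p : ℕ) : Prop :=
  ∀ _ : Fact p.Prime, IsSmooth (map (algebraMap (ZMod p) (AlgebraicClosure (ZMod p))) (map (Int.castRingHom (ZMod p)) F))

/-- The primes `p` in `S` with `Y < p ≤ Y'`. -/
def primesIn (S : Set ℕ) (Y Y' : ℕ) : Set ℕ := {p ∈ S | p.Prime ∧ Y < p ∧ p ≤ Y'}

/-- The moments of the normal law. -/
def normalMoment (k : ℕ) : ℝ := if Even k then ((k - 1).doubleFactorial : ℝ) else 0

/-- The proportion of the `p` in `V` with `z_p ≤ x`. -/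
noncomputable def proportion (V : Set ℕ) (z : ℕ → ℝ) (x : ℝ) : ℝ := ({p ∈ V | z p ≤ x}.ncard : ℝ) / V.ncard

/-- The numbers `z_p` have, over all intervals of primes, the moments of order at most `w` of the normal law and its distribution function up to
`4 / √M` if `2 M ≤ w`, and up to `8 / √M` that of every law `ν` with the moments of order at most `2 M` of the normal law: for all `Y ≤ Y'` with
`X₀ ≤ Y' ≤ R` and all `S` in `𝒮`, the sums and proportions over the `p` of `S` in `(Y, Y']` that are in `𝒢`. -/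
def Typical (w : ℕ) (ε C : ℝ) (𝒮 : Finset (Set ℕ)) (𝒢 : Set ℕ) (X₀ : ℕ) (R : ℝ) (z : ℕ → ℝ) : Prop :=
  ∀ S ∈ 𝒮, ∀ Y Y' : ℕ, Y ≤ Y' → X₀ ≤ Y' → (Y' : ℝ) ≤ R →
    (∀ k ≤ w, |∑ᶠ p ∈ primesIn (S ∩ 𝒢) Y Y', (z p ^ k - normalMoment k)| ≤ C * (Y' : ℝ) ^ (1 / 2 + ε / 2)) ∧
    ((Y' : ℝ) ^ (1 / 2 + ε) ≤ (primesIn (S ∩ 𝒢) Y Y').ncard → ∀ M : ℕ, 1 ≤ M → 2 * M ≤ w → ∀ x : ℝ,
      |proportion (primesIn (S ∩ 𝒢) Y Y') z x - (gaussianReal 0 1).real (Set.Iic x)| ≤ 4 / Real.sqrt M + C * (Y' : ℝ) ^ (-(ε / 2)) ∧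
      ∀ (ν : Measure ℝ) [IsProbabilityMeasure ν], (∀ k ≤ 2 * M, Integrable (fun y : ℝ => y ^ k) ν) →
        (∀ k ≤ 2 * M, ∫ y, y ^ k ∂ν = normalMoment k) →
        |proportion (primesIn (S ∩ 𝒢) Y Y') z x - ν.real (Set.Iic x)| ≤ 8 / Real.sqrt M + C * (Y' : ℝ) ^ (-(ε / 2)))

/-- The integer vectors `t` with `N i ≤ t i < N i + L i`. -/
noncomputable def box {κ : Type} [Fintype κ] [DecidableEq κ] (N : κ → ℤ) (L : κ → ℕ) : Finset (κ → ℤ) :=
  Fintype.piFinset fun i => Ico (N i) (N i + L i)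

/-- For all `𝒮`, all boxes with sides at least `T` and all `X₀` the vectors `t` of the box for which `z t` is not typical at the primes
in `𝒢 t` between `X₀` and `T ^ κ₀` are at most `C |𝒮| X₀ ^ (-ε / 2)` of all. -/
def AlmostAll {κ : Type} [Fintype κ] [DecidableEq κ] (w : ℕ) (ε κ₀ C : ℝ) (𝒢 : (κ → ℤ) → Set ℕ) (z : (κ → ℤ) → ℕ → ℝ) : Prop :=
  ∀ (𝒮 : Finset (Set ℕ)) (N : κ → ℤ) (L : κ → ℕ) (T : ℝ), 0 < T → (∀ i, T ≤ L i) → ∀ X₀ : ℕ, 1 ≤ X₀ →
    ({t ∈ box N L | ¬ Typical w ε C 𝒮 (𝒢 t) X₀ (T ^ κ₀) (z t)} : Set (κ → ℤ)).ncard ≤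
      C * 𝒮.card * (X₀ : ℝ) ^ (-(ε / 2)) * ∏ i, (L i : ℝ)

lemma member_eq {n : ℕ} {J : Type} [Fintype J] {d : J → ℕ} (g : J → MvPolynomial (Fin (n + 1)) ℤ) (t : (Σ j : J, Mon n (d j)) → ℤ) :
    member g t = Q285HS.fam g t := rfl

lemma gm_eq (k : ℕ) : normalMoment k = (Q282MM.gm k : ℝ) := by
  unfold normalMoment Q282MM.gm
  split_ifs <;> simp

lemma trace_eq {n : ℕ} {J : Type} [Fintype J] [DecidableEq J] {d : J → ℕ} (g : J → MvPolynomial (Fin (n + 1)) ℤ)
    (W : Set (MvPolynomial (Fin (n + 1)) ℤ)) (D m p : ℕ) (hm : 2 ≤ m) (hp : p.Prime) (hg : 1 < Nat.gcd m (p - 1)) (t : (Σ j : J, Mon n (d j)) → ℤ) :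
    trace W D m (member g t) p = Pool.Agent.H25CC.HC g W m D p fun x => (t x : ZMod p) := by
  have : Fact p.Prime := ⟨hp⟩
  rw [← Pool.Agent.H25CC.HC_trace (g := g) (W := W) m D p hm hg t]
  unfold trace coverPoints
  rw [dif_pos hp, member_eq]
  rfl

/-- from the engine to the statement -/
lemma almost {κ : Type} [Fintype κ] [DecidableEq κ] {w β p₁ p₀ : ℕ} {K C₀ : ℝ} (H : (p : ℕ) → (κ → ZMod p) → ℝ)
    (hH : Q285HS.NearN H (2 * w) β p₁ K) (Bad : (p : ℕ) → Set (κ → ZMod p)) (hBad : Q285HS.FewBad Bad p₀ C₀) (ε : ℝ) (hε : 0 < ε) (hε1 : ε ≤ 1)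
    (G₀ : Set ℕ) (𝒢 : (κ → ℤ) → Set ℕ) (z : (κ → ℤ) → ℕ → ℝ) (hz : ∀ t p, p.Prime → p ∈ G₀ → z t p = H p fun i => (t i : ZMod p))
    (hG : ∀ t p, p.Prime → (p ∈ 𝒢 t ↔ p ∈ G₀ ∧ (fun i => (t i : ZMod p)) ∉ Bad p)) :
    ∃ κ₀ : ℝ, 0 < κ₀ ∧ ∃ C : ℝ, AlmostAll w ε κ₀ C 𝒢 z := by
  classical
  obtain ⟨κ₀, hκ₀, C, hC, h⟩ := H41N.MD.law hH Bad hBad ε hε hε1
  refine ⟨κ₀, hκ₀, C, fun 𝒮 N L T hT hTL X₀ hX₀ => ?_⟩
  obtain ⟨f, hf⟩ : ∃ f : Set ℕ → Set ℕ, ∀ S, ∀ p : ℕ, p ∈ f S ↔ p ∈ S ∧ p ∈ G₀ := ⟨fun S => S ∩ G₀, fun S p => Iff.rfl⟩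
  choose E hE1 hE2 hE3 using fun S : Set ℕ => h (f S) N L T hT hTL X₀ hX₀
  have hsub : ({t ∈ box N L | ¬ Typical w ε C 𝒮 (𝒢 t) X₀ (T ^ κ₀) (z t)} : Set (κ → ℤ)) ⊆ ↑(𝒮.biUnion E) := by
    rintro t ⟨ht, hnt⟩
    by_contra hno
    rw [mem_coe, mem_biUnion] at hno
    push Not at hno
    refine hnt fun S hS Y Y' hYY hY hYT => ?_
    obtain ⟨h1, h2⟩ := hE3 S t ht (hno S hS) Y Y' hYY hY hYT
    have hset : primesIn (S ∩ 𝒢 t) Y Y' = ↑(Q285HS.VV Bad (f S) Y Y' t) := by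
      ext p
      unfold primesIn Q285HS.VV Q285HS.IV
      rw [mem_coe, mem_filter, mem_filter, mem_Ioc]
      constructor
      · rintro ⟨⟨h3, h4⟩, h5, h6, h7⟩
        have h8 := (hG t p h5).1 h4
        exact ⟨⟨⟨h6, h7⟩, h5⟩, (hf S p).2 ⟨h3, h8.1⟩, h8.2⟩
      · rintro ⟨⟨⟨h6, h7⟩, h5⟩, h9, h4⟩
        obtain ⟨h3, h8⟩ := (hf S p).1 h9
        exact ⟨⟨h3, (hG t p h5).2 ⟨h8, h4⟩⟩, h5, h6, h7⟩
    have hpr : ∀ p ∈ Q285HS.VV Bad (f S) Y Y' t, p.Prime ∧ p ∈ G₀ := by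
      intro p hp
      unfold Q285HS.VV Q285HS.IV at hp
      exact ⟨(mem_filter.1 (mem_filter.1 hp).1).2, ((hf S p).1 (mem_filter.1 hp).2.1).2⟩
    rw [hset]
    refine ⟨fun k hk => ?_, fun hcard M hM hMw x => ?_⟩
    · rw [finsum_mem_coe_finset]
      rw [sum_congr rfl fun p hp => by rw [hz t p (hpr p hp).1 (hpr p hp).2, gm_eq]]
      exact h1 k hk
    · obtain ⟨_, _, _, hnu⟩ := Q282MM.emp Q282MM.fin_true M hM
      rw [Set.ncard_coe_finset] at hcard
      have h3 : proportion (↑(Q285HS.VV Bad (f S) Y Y' t)) (z t) x =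
          (((Q285HS.VV Bad (f S) Y Y' t).filter fun p => H p (fun y => (t y : ZMod p)) ≤ x).card : ℝ) /
            (Q285HS.VV Bad (f S) Y Y' t).card := by
        unfold proportion
        rw [Set.ncard_coe_finset]
        congr 2
        rw [← Set.ncard_coe_finset]
        congr 1
        ext p
        rw [mem_coe, mem_filter]
        constructor
        · rintro ⟨h4, h5⟩
          exact ⟨h4, by rw [← hz t p (hpr p h4).1 (hpr p h4).2]; exact h5⟩
        · rintro ⟨h4, h5⟩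
          exact ⟨h4, by rw [hz t p (hpr p h4).1 (hpr p h4).2]; exact h5⟩
      have h4 := h2 hcard M hM hMw x
      rw [← h3] at h4
      refine ⟨h4, fun ν _ hi hk => ?_⟩
      have h5 := hnu ν hi (fun k hk' => by rw [hk k hk', gm_eq]) x
      have h6 := abs_sub_le (proportion (↑(Q285HS.VV Bad (f S) Y Y' t)) (z t) x) (Q282MM.Phi x) (ν.real (Set.Iic x))
      rw [abs_sub_comm (Q282MM.Phi x)] at h6
      have h7 : 8 / Real.sqrt M = 4 / Real.sqrt M + 4 / Real.sqrt M := by ring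
      rw [h7]
      linarith
  have h1 := Set.ncard_le_ncard hsub (Finset.finite_toSet _)
  rw [Set.ncard_coe_finset] at h1
  have h2 : ((𝒮.biUnion E).card : ℝ) ≤ ∑ S ∈ 𝒮, C * (X₀ : ℝ) ^ (-(ε / 2)) * ∏ i, (L i : ℝ) := by
    refine le_trans (Nat.cast_le.2 card_biUnion_le) ?_
    push_cast
    exact sum_le_sum fun S _ => hE2 S
  rw [sum_const, nsmul_eq_mul] at h2
  calc (({t ∈ box N L | ¬ Typical w ε C 𝒮 (𝒢 t) X₀ (T ^ κ₀) (z t)} : Set (κ → ℤ)).ncard : ℝ) ≤ ((𝒮.biUnion E).card : ℝ) := by exact_mod_cast h1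
    _ ≤ _ := h2
    _ = _ := by ring

/-- the numerical condition -/
lemma num_ok (D δ w : ℕ) (hD : 2 ≤ D) (hDe : Even D) (hδ : 3 ≤ δ) (h2 : D = 2 → w + 2 ≤ δ) :
    ∀ i, δ + 1 < i → i ≤ 2 * w → 3 * i + 4 * D ≤ D * i + 2 * (δ + 1) + 3 := by
  intro i h1 h3
  rcases Nat.lt_or_ge D 4 with h | h
  · have : D = 2 := by
      obtain ⟨a, ha⟩ := hDe
      omega
    subst this
    have := h2 rfl
    omega
  · obtain ⟨a, rfl⟩ : ∃ a, D = a + 4 := ⟨D - 4, by omega⟩
    obtain ⟨b, rfl⟩ : ∃ b, i = b + 5 := ⟨i - 5, by omega⟩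
    nlinarith [Nat.zero_le (a * b)]

/-- **Part 1.** Covers of projective space, primes of good reduction. -/
theorem spaces (n m δ w : ℕ) (hn : 2 ≤ n) (hne : Even n) (hm : 2 ≤ m) (hδ : 3 ≤ δ) (hw : w ≤ δ) (hw2 : n = 2 → w + 2 ≤ δ)
    (ε : ℝ) (hε : 0 < ε) (hε1 : ε ≤ 1) :
    ∃ κ₀ : ℝ, 0 < κ₀ ∧ ∃ C : ℝ, AlmostAll w ε κ₀ C (fun t => {p | 1 < Nat.gcd m (p - 1) ∧ ¬ p ∣ m ∧ Good (form t) p})
      fun t : Mon n δ → ℤ => trace ∅ n m (form t) := by
  classical
  obtain ⟨K, p₁, hN⟩ := Pool.Agent.H25CC.near_cov (d := fun _ : Unit => δ) m hm hn (Q285HS.sz_proj (n := n) (by omega)) (2 * w) δ hδ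
    (fun _ => le_rfl) (by omega) (num_ok n δ w hn hne hδ hw2)
  have hN' := Q285HS.near_equiv (Equiv.uniqueSigma fun _ : Unit => Mon n δ) hN
  obtain ⟨Bad, hBad⟩ : ∃ Bad : (p : ℕ) → Set (Mon n δ → ZMod p), Bad = fun p =>
      {u | p ∣ m ∨ ¬ ∀ _ : Fact p.Prime, IsSmooth (map (algebraMap (ZMod p) (AlgebraicClosure (ZMod p))) (form u))} := ⟨_, rfl⟩
  have hform : ∀ (t : Mon n δ → ℤ) (p : ℕ), map (Int.castRingHom (ZMod p)) (form t) = form fun m => (t m : ZMod p) := by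
    intro t p
    unfold Pool.Agent.Y722.HS.form
    simp [map_sum, map_prod]
  refine almost _ hN' Bad (p₀ := max (δ + 1) (m + 1)) (C₀ := (Pool.Agent.Y722.HS.Delta n δ).totalDegree) ?_ ε hε hε1
    {p | 1 < Nat.gcd m (p - 1)} _ _ (fun t p hp hg => ?_) (fun t p hp => ?_)
  · intro p hp hpp
    have : Fact p.Prime := ⟨hp⟩
    have hp0 : (0 : ℝ) < p := by exact_mod_cast hp.pos
    have hpδ : δ + 1 ≤ p := (le_max_left _ _).trans hpp
    have hpm : m + 1 ≤ p := (le_max_right _ _).trans hpp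
    have h1 := Pool.Agent.Y722.HS.card_bad n δ p (fun h => by
      have := Nat.le_of_dvd (by omega) h
      omega)
    have h2 : (Bad p).ncard ≤ Nat.card {c : Mon n δ → ZMod p // Pool.Agent.Y722.HS.IsBad p c} := by
      have h3 : Nat.card {c : Mon n δ → ZMod p // Pool.Agent.Y722.HS.IsBad p c} = ({c | Pool.Agent.Y722.HS.IsBad p c} : Set (Mon n δ → ZMod p)).ncard := rfl
      rw [h3]
      refine Set.ncard_le_ncard ?_ (Set.toFinite _)
      intro u hu
      rw [hBad] at hu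
      by_contra hnb
      rcases hu with hu | hu
      · have := Nat.le_of_dvd (by omega) hu
        omega
      · exact hu fun _ => Pool.Agent.Y722.HS.isSmooth_of_not_isBad p (by omega) u hnb
    have h3 : ((Bad p).ncard : ℝ) ≤ (Nat.card {c : Mon n δ → ZMod p // Pool.Agent.Y722.HS.IsBad p c} : ℝ) := by exact_mod_cast h2
    rw [div_mul_eq_mul_div, le_div_iff₀ hp0]
    refine le_trans (mul_le_mul_of_nonneg_right h3 hp0.le) h1
  · have h1 := trace_eq (fun _ : Unit => (1 : MvPolynomial (Fin (n + 1)) ℤ)) ∅ n m p hm hp hg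
      (fun x : Q285HS.Idx n (fun _ : Unit => δ) => t x.2)
    have h2 : member (fun _ : Unit => (1 : MvPolynomial (Fin (n + 1)) ℤ)) (fun x : Q285HS.Idx n (fun _ : Unit => δ) => t x.2) = form t := by
      unfold member
      simp
    rw [h2] at h1
    exact h1
  · rw [hBad]
    show (1 < Nat.gcd m (p - 1) ∧ ¬ p ∣ m ∧ Good (form t) p) ↔ (1 < Nat.gcd m (p - 1) ∧ ¬ (p ∣ m ∨ ¬ _))
    rw [not_or, not_not]
    have key : Good (form t) p ↔ ∀ _ : Fact p.Prime, IsSmooth (map (algebraMap (ZMod p) (AlgebraicClosure (ZMod p))) (form fun i => (t i : ZMod p))) := by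
      unfold Good
      refine forall_congr' fun hF => ?_
      have h1 := hform t p
      have h2 : map (algebraMap (ZMod p) (AlgebraicClosure (ZMod p))) (map (Int.castRingHom (ZMod p)) (form t)) =
          map (algebraMap (ZMod p) (AlgebraicClosure (ZMod p))) (form fun m => (t m : ZMod p)) := congrArg _ h1
      exact iff_of_eq (congrArg IsSmooth h2)
    rw [key]

/-- **Part 2.** Covers of `W` branched along the members of a linear system. -/
theorem systems {n : ℕ} {J : Type} [Fintype J] [DecidableEq J] (m : ℕ) (hm : 2 ≤ m) (d : J → ℕ) (g : J → MvPolynomial (Fin (n + 1)) ℤ)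
    (W : Set (MvPolynomial (Fin (n + 1)) ℤ)) (D p₀ : ℕ) (hD : 2 ≤ D) (hDe : Even D) (C₀ : ℝ)
    (hW : ∀ p : ℕ, p.Prime → p₀ ≤ p → |(points p W : ℝ) - (p : ℝ) ^ D| ≤ C₀ * ((p : ℝ) ^ D / Real.sqrt p))
    (hB : ∀ p : ℕ, p.Prime → p₀ ≤ p → (points p (W ∪ Set.range g) : ℝ) ≤ C₀ * ((p : ℝ) ^ D / Real.sqrt p))
    (δ w : ℕ) (hδ : 3 ≤ δ) (hd : ∀ j, δ ≤ d j) (hw : w ≤ δ) (hw2 : D = 2 → w + 2 ≤ δ) (ε : ℝ) (hε : 0 < ε) (hε1 : ε ≤ 1) :
    ∃ κ₀ : ℝ, 0 < κ₀ ∧ ∃ C : ℝ, AlmostAll w ε κ₀ C (fun _ => {p | 1 < Nat.gcd m (p - 1)})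
      fun t : (Σ j : J, Mon n (d j)) → ℤ => trace W D m (member g t) := by
  have hsz : Q285HS.Sz g W D p₀ C₀ := ⟨hW, hB⟩
  obtain ⟨K, p₁, hN⟩ := Pool.Agent.H25CC.near_cov (d := d) m hm hD hsz (2 * w) δ hδ hd (by omega) (num_ok D δ w hD hDe hδ hw2)
  refine almost _ hN (fun _ => ∅) (p₀ := 0) (C₀ := 0) ?_ ε hε hε1 {p | 1 < Nat.gcd m (p - 1)} _ _ (fun t p hp hg => ?_) (fun t p hp => ?_)
  · intro p _ _
    simp
  · exact trace_eq g W D m p hm hp hg t
  · simp

/-- **The Sato-Tate law of almost all cyclic covers of projective spaces of even dimension: the moments of order at most the degree of the branch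
divisor (less by two for surfaces).** -/
theorem result :
    -- the covers `w ^ m = F` of `P ^ n`, `n` even, `F` of degree `δ ≥ 3` divisible by `m`, and the primes `p` with `gcd (m, p - 1) > 1` that do not
    -- divide `m` and modulo which the branch divisor `F = 0` is smooth
    (∀ n m δ w : ℕ, 2 ≤ n → Even n → 2 ≤ m → m ∣ δ → 3 ≤ δ → w ≤ δ → (n = 2 → w + 2 ≤ δ) → ∀ ε : ℝ, 0 < ε → ε ≤ 1 →
      ∃ κ₀ : ℝ, 0 < κ₀ ∧ ∃ C : ℝ, AlmostAll w ε κ₀ C (fun t => {p | 1 < Nat.gcd m (p - 1) ∧ ¬ p ∣ m ∧ Good (form t) p})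
        fun t : Mon n δ → ℤ => trace ∅ n m (form t)) ∧
    -- the covers `w ^ m = ∑ g_j h_j` of `W`, of even dimension `D`, `h_j` of degree `d_j ≥ d₀ ≥ 3`, `∑ g_j h_j` of degree `δ` divisible by `m`, and all
    -- primes `p` with `gcd (m, p - 1) > 1`
    (∀ (n m : ℕ) (J : Type) [Fintype J] [DecidableEq J] (d : J → ℕ) (g : J → MvPolynomial (Fin (n + 1)) ℤ)
      (W : Set (MvPolynomial (Fin (n + 1)) ℤ)) (D p₀ : ℕ) (C₀ : ℝ), 2 ≤ m → 2 ≤ D → Even D →
      (∀ G ∈ W, ∃ a, G.IsHomogeneous a) →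
      (∀ p : ℕ, p.Prime → p₀ ≤ p → |(points p W : ℝ) - (p : ℝ) ^ D| ≤ C₀ * ((p : ℝ) ^ D / Real.sqrt p)) →
      (∀ p : ℕ, p.Prime → p₀ ≤ p → (points p (W ∪ Set.range g) : ℝ) ≤ C₀ * ((p : ℝ) ^ D / Real.sqrt p)) →
      ∀ (δ : ℕ) (e : J → ℕ), (∀ j, (g j).IsHomogeneous (e j)) → (∀ j, e j + d j = δ) → m ∣ δ →
      ∀ d₀ w : ℕ, 3 ≤ d₀ → (∀ j, d₀ ≤ d j) → w ≤ d₀ → (D = 2 → w + 2 ≤ d₀) → ∀ ε : ℝ, 0 < ε → ε ≤ 1 →
      ∃ κ₀ : ℝ, 0 < κ₀ ∧ ∃ C : ℝ, AlmostAll w ε κ₀ C (fun _ => {p | 1 < Nat.gcd m (p - 1)})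
        fun t : (Σ j : J, Mon n (d j)) → ℤ => trace W D m (member g t)) :=
  ⟨fun n m δ w hn hne hm _ hδ hw hw2 ε hε hε1 => spaces n m δ w hn hne hm hδ hw hw2 ε hε hε1,
    fun _ m _ _ _ d g W D p₀ C₀ hm hD hDe _ hW hB _ _ _ _ _ δ w hδ hd hw hw2 ε hε hε1 =>
      systems m hm d g W D p₀ hD hDe C₀ hW hB δ w hδ hd hw hw2 ε hε hε1⟩

end Pool.Agent.Results.MP_32ceeb_nt.CyclicCovers
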