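import Pool.Agent.H41N.JT.Fin
import Pool.Agent.Y722.HS.Bad

/-!
# The Sato-Tate law of the middle cohomology of almost all hypersurfaces against the characters of `O(b)` of small degree

Let `X` be a smooth hypersurface of degree `δ` and even dimension `n - 1` in `P ^ n` over `Q`, and let `x_p` be the class of Frobenius on the
primitive part (of dimension `b`, about `δ ^ n`) of `H ^ (n - 1)(X)((n - 1) / 2)`. For all `k ≥ 1`
`#X(F_(p ^ k)) = 1 + p ^ k + … + p ^ (k (n - 1)) + tr(x_p ^ k) p ^ (k (n - 1) / 2)`.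
The Sato-Tate conjecture predicts for a general `X` that the classes `x_p` are distributed like random matrices of the full
orthogonal group `O(b)`. The characters of `O(b)` are polynomials in the traces `tr x, tr x ^ 2, …` of the powers, and the mean over `O(b)` of a
polynomial of weight at most `b / 2` (`tr x ^ k` has the weight `k`) is its mean for independent normal variables of means `0, 1, 0, 1, …` and variances
`1, 2, 3, …` (Diaconis and Shahshahani).

It is proved, unconditionally, that for almost all `X`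

* the mean over the primes of every polynomial of weight at most `w = ⌊(δ + 1) / 2⌋` in the traces `tr x_p ^ k` is the predicted one,
  with an error `Y ^ (1 / 2 + ε / 2)` for the sum over the primes in any interval below `Y`,
* in particular the functions `tr Λ ^ i x_p` (the coefficients of the characteristic polynomial of Frobenius) are orthonormal,
* every linear combination of `tr x_p, …, tr x_p ^ r` has, for the primes in every not too short interval, the predicted normal distribution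
  up to `4 / √M`, where `2 r M ≤ w`.

The same is true for the members of even dimension of linear systems on a subscheme `W` of `P ^ n`.

Proof. The values of forms of degree `m - 1` over the prime field at closed points of total degree `m` are independent (descent). Therefore the
numbers of the closed points of degree `1, 2, …` on a random hypersurface have nearly the joint moments of independent variables, each of
which has nearly the moments of a normal variable; this gives the joint moments of the traces of the powers. The chinese remainder theorem, the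
inequality of Rademacher and Menshov and the inequality of Esseen (`Q285.HS`, `Q282.MM`) finish the proof.
-/

set_option autoImplicit false

namespace Pool.Agent.Results.MP_32ceeb_nt.JointPowerTraces

open Finset MeasureTheory ProbabilityTheory MvPolynomial
open Pool.Agent.Y722.HS (Mon form IsSmooth)
open scoped LinearAlgebra.Projectivization

/-- The number of the points of `P ^ n` over the field with `p ^ k` elements at which all forms in `S` vanish. -/
noncomputable def points {n : ℕ} (p k : ℕ) (S : Set (MvPolynomial (Fin (n + 1)) ℤ)) : ℕ :=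
  if h : p.Prime then
    haveI : Fact p.Prime := ⟨h⟩
    Nat.card {P : ℙ (GaloisField p k) (Fin (n + 1) → GaloisField p k) // ∀ G ∈ S, aeval P.rep G = 0}
  else 0

/-- The form `∑_j g_j h_j`, where `h_j` is the form of degree `d_j` with the coefficients `t (j, ·)`. -/
noncomputable def member {n : ℕ} {J : Type} [Fintype J] {d : J → ℕ} (g : J → MvPolynomial (Fin (n + 1)) ℤ) (t : (Σ j : J, Mon n (d j)) → ℤ) :
    MvPolynomial (Fin (n + 1)) ℤ :=
  ∑ j, g j * form fun ν => t ⟨j, ν⟩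

/-- The normalised deviation `(#V(F_(p ^ k)) - c k p) / p ^ (k (D - 1) / 2)`, `V` the intersection of `W` and the hypersurface `F = 0`. -/
noncomputable def trace {n : ℕ} (W : Set (MvPolynomial (Fin (n + 1)) ℤ)) (D : ℕ) (c : ℕ → ℕ → ℝ) (F : MvPolynomial (Fin (n + 1)) ℤ) (p k : ℕ) : ℝ :=
  ((points p k (W ∪ {F}) : ℝ) - c k p) / Real.sqrt p ^ (k * (D - 1))

/-- The hypersurface `F = 0` is smooth over the algebraic closure of the field with `p` elements. -/
def Good {n : ℕ} (F : MvPolynomial (Fin (n + 1)) ℤ) (p : ℕ) : Prop :=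
  ∀ _ : Fact p.Prime, IsSmooth (map (algebraMap (ZMod p) (AlgebraicClosure (ZMod p))) (map (Int.castRingHom (ZMod p)) F))

/-- The primes `p` in `S` with `Y < p ≤ Y'`. -/
def primesIn (S : Set ℕ) (Y Y' : ℕ) : Set ℕ := {p ∈ S | p.Prime ∧ Y < p ∧ p ≤ Y'}

/-- `1` for even `k`, `0` for odd `k`: the mean of the trace of the `k`-th power. -/
noncomputable def centre (k : ℕ) : ℝ := if Even k then 1 else 0

/-- The mean of `P (Z_1, …, Z_w)` for independent normal variables `Z_k` of mean `centre k` and variance `k` (`Z_k` is the variable `k - 1` of `P`). -/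
noncomputable def mean {w : ℕ} (P : MvPolynomial (Fin w) ℝ) : ℝ :=
  ∫ y : Fin w → ℝ, eval (fun i : Fin w => centre (i + 1) + Real.sqrt ((i : ℕ) + 1) * y i) P ∂(Measure.pi fun _ : Fin w => gaussianReal 0 1)

/-- The sum of the absolute values of the coefficients. -/
noncomputable def size {w : ℕ} (P : MvPolynomial (Fin w) ℝ) : ℝ := ∑ m ∈ P.support, |P.coeff m|

/-- The trace of the `j`-th exterior power of `A`, if `z k` is the trace of `A ^ k` for `k ≥ 1` (Newton's formula). -/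
noncomputable def exterior (z : ℕ → ℝ) : ℕ → ℝ
  | 0 => 1
  | j + 1 => (∑ i ∈ range (j + 1), (-1) ^ i * exterior z (j - i) * z (i + 1)) / (j + 1)
  decreasing_by omega

/-- The proportion of the `p` in `V` with `z_p ≤ x`. -/
noncomputable def proportion (V : Set ℕ) (z : ℕ → ℝ) (x : ℝ) : ℝ := ({p ∈ V | z p ≤ x}.ncard : ℝ) / V.ncard

/-- The numbers `z_p(1), z_p(2), …` have over all intervals of primes the joint law of independent normal variables of means `centre k` and variances `k`,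
tested against polynomials of weight at most `w`, products of exterior powers, and (distribution functions) linear combinations: for all `Y ≤ Y'`
with `X₀ ≤ Y' ≤ R` and all `S` in `𝒮`, the sums and proportions over the `p` of `S` in `(Y, Y']` that are in `𝒢`. -/
def Typical (w : ℕ) (ε C : ℝ) (𝒮 : Finset (Set ℕ)) (𝒢 : Set ℕ) (X₀ : ℕ) (R : ℝ) (z : ℕ → ℕ → ℝ) : Prop :=
  ∀ S ∈ 𝒮, ∀ Y Y' : ℕ, Y ≤ Y' → X₀ ≤ Y' → (Y' : ℝ) ≤ R →
    (∀ P : MvPolynomial (Fin w) ℝ, P.weightedTotalDegree (fun i : Fin w => (i : ℕ) + 1) ≤ w →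
      |∑ᶠ p ∈ primesIn (S ∩ 𝒢) Y Y', (eval (fun i : Fin w => z p (i + 1)) P - mean P)| ≤ C * size P * (Y' : ℝ) ^ (1 / 2 + ε / 2)) ∧
    (∀ i j : ℕ, i + j ≤ w →
      |∑ᶠ p ∈ primesIn (S ∩ 𝒢) Y Y', (exterior (z p) i * exterior (z p) j - if i = j then 1 else 0)| ≤ C * (Y' : ℝ) ^ (1 / 2 + ε / 2)) ∧
    ((Y' : ℝ) ^ (1 / 2 + ε) ≤ (primesIn (S ∩ 𝒢) Y Y').ncard → ∀ M r : ℕ, 1 ≤ M → 2 * r * M ≤ w →
      ∀ θ : Fin w → ℝ, (∀ i : Fin w, r ≤ (i : ℕ) → θ i = 0) → ∑ i : Fin w, ((i : ℕ) + 1 : ℝ) * θ i ^ 2 = 1 → ∀ x : ℝ,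
        |proportion (primesIn (S ∩ 𝒢) Y Y') (fun p => ∑ i : Fin w, θ i * (z p (i + 1) - centre (i + 1))) x - (gaussianReal 0 1).real (Set.Iic x)| ≤
          4 / Real.sqrt M + C * (Y' : ℝ) ^ (-(ε / 2)))

/-- The integer vectors `t` with `N i ≤ t i < N i + L i`. -/
noncomputable def box {κ : Type} [Fintype κ] [DecidableEq κ] (N : κ → ℤ) (L : κ → ℕ) : Finset (κ → ℤ) :=
  Fintype.piFinset fun i => Ico (N i) (N i + L i)

/-- For all `𝒮`, all boxes with sides at least `T` and all `X₀` the vectors `t` of the box for which `z t` is not typical at the primes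
in `𝒢 t` between `X₀` and `T ^ κ₀` are at most `C |𝒮| X₀ ^ (-ε / 2)` of all. -/
def AlmostAll {κ : Type} [Fintype κ] [DecidableEq κ] (w : ℕ) (ε κ₀ C : ℝ) (𝒢 : (κ → ℤ) → Set ℕ) (z : (κ → ℤ) → ℕ → ℕ → ℝ) : Prop :=
  ∀ (𝒮 : Finset (Set ℕ)) (N : κ → ℤ) (L : κ → ℕ) (T : ℝ), 0 < T → (∀ i, T ≤ L i) → ∀ X₀ : ℕ, 1 ≤ X₀ →
    ({t ∈ box N L | ¬ Typical w ε C 𝒮 (𝒢 t) X₀ (T ^ κ₀) (z t)} : Set (κ → ℤ)).ncard ≤
      C * 𝒮.card * (X₀ : ℝ) ^ (-(ε / 2)) * ∏ i, (L i : ℝ)

lemma points_eq {n : ℕ} (p k : ℕ) (S : Set (MvPolynomial (Fin (n + 1)) ℤ)) : points p k S = H41N.JT.npts p k S := rfl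

lemma member_eq {n : ℕ} {J : Type} [Fintype J] {d : J → ℕ} (g : J → MvPolynomial (Fin (n + 1)) ℤ) (t : (Σ j : J, Mon n (d j)) → ℤ) :
    member g t = H41N.JT.fam g t := rfl

lemma centre_eq (k : ℕ) : centre k = H41N.JT.eta k := rfl

lemma exterior_eq (z : ℕ → ℝ) (j : ℕ) : exterior z j = H41N.JT.elem z j := by
  induction j using Nat.strong_induction_on with
  | _ j ih =>
    rcases j with _ | j
    · rw [exterior, H41N.JT.elem_zero]
    · rw [exterior, H41N.JT.elem_succ]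
      congr 1
      exact sum_congr rfl fun i _ => by rw [ih (j - i) (by omega)]

lemma mean_eq {w : ℕ} (P : MvPolynomial (Fin w) ℝ) :
    mean P = ∫ y, eval (fun i : Fin w => H41N.JT.lv y (i + 1)) P ∂(H41N.JT.GG w) := by
  unfold mean
  refine integral_congr_ae (Filter.Eventually.of_forall fun y => ?_)
  dsimp only
  congr 2
  funext i
  rw [H41N.JT.lv_succ]
  push_cast
  rfl

/-- from the engine to the statement -/
lemma almost {κ : Type} [Fintype κ] [DecidableEq κ] {w β p₀ : ℕ} {K C₀ : ℝ} (Z : (p : ℕ) → ℕ → (κ → ZMod p) → ℝ)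
    (hZ : H41N.JT.JM Z w β K) (Bad : (p : ℕ) → Set (κ → ZMod p)) (hBad : Q285HS.FewBad Bad p₀ C₀) (ε : ℝ) (hε : 0 < ε) (hε1 : ε ≤ 1)
    (𝒢 : (κ → ℤ) → Set ℕ) (z : (κ → ℤ) → ℕ → ℕ → ℝ) (hz : ∀ t p, p.Prime → ∀ k, z t p k = Z p k fun i => (t i : ZMod p))
    (hG : ∀ t p, p.Prime → (p ∈ 𝒢 t ↔ (fun i => (t i : ZMod p)) ∉ Bad p)) :
    ∃ κ₀ : ℝ, 0 < κ₀ ∧ ∃ C : ℝ, AlmostAll w ε κ₀ C 𝒢 z := by
  classical
  obtain ⟨κ₀, hκ₀, C, hC, h⟩ := H41N.JT.law_mono hZ Bad hBad ε hε hε1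
  obtain ⟨C₁, hC₁, hlin⟩ := H41N.JT.lin_dist w
  have hex : ∀ i : ℕ, ∃ B, i ≤ w → H41N.JT.PB w i B fun z => H41N.JT.elem z i := by
    intro i
    by_cases hi : i ≤ w
    · obtain ⟨B, hB⟩ := H41N.JT.PB.elem (w := w) i hi
      exact ⟨B, fun _ => hB⟩
    · exact ⟨0, fun h => absurd h hi⟩
  choose B hB using hex
  obtain ⟨C₂, hC₂⟩ : ∃ C₂ : ℝ, C₂ = ∑ i ∈ range (w + 1), |B i| := ⟨_, rfl⟩
  have hC₂0 : 0 ≤ C₂ := by
    rw [hC₂]
    positivity
  have hBC : ∀ i ≤ w, B i ≤ C₂ := fun i hi => by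
    rw [hC₂]
    exact (le_abs_self _).trans (single_le_sum (f := fun i => |B i|) (fun _ _ => abs_nonneg _) (mem_range.2 (by omega)))
  have hCC : C ≤ C * (1 + C₂ ^ 2 + C₁) := le_mul_of_one_le_right (by linarith) (by nlinarith [sq_nonneg C₂])
  refine ⟨κ₀, hκ₀, C * (1 + C₂ ^ 2 + C₁), fun 𝒮 N L T hT hTL X₀ hX₀ => ?_⟩
  choose E hE1 hE2 hE3 using fun S : Set ℕ => h S N L T hT hTL X₀ hX₀
  have hsub : ({t ∈ box N L | ¬ Typical w ε (C * (1 + C₂ ^ 2 + C₁)) 𝒮 (𝒢 t) X₀ (T ^ κ₀) (z t)} : Set (κ → ℤ)) ⊆ ↑(𝒮.biUnion E) := by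
    rintro t ⟨ht, hnt⟩
    by_contra hno
    rw [mem_coe, mem_biUnion] at hno
    push Not at hno
    refine hnt fun S hS Y Y' hYY hY hYT => ?_
    have h1 := hE3 S t ht (hno S hS) Y Y' hYY hY hYT
    obtain ⟨V, hV⟩ : ∃ V : Finset ℕ, V = Q285HS.VV Bad S Y Y' t := ⟨_, rfl⟩
    have hset : primesIn (S ∩ 𝒢 t) Y Y' = ↑V := by
      rw [hV]
      ext p
      unfold primesIn Q285HS.VV Q285HS.IV
      rw [mem_coe, mem_filter, mem_filter, mem_Ioc]
      constructor
      · rintro ⟨⟨h3, h4⟩, h5, h6, h7⟩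
        exact ⟨⟨⟨h6, h7⟩, h5⟩, h3, (hG t p h5).1 h4⟩
      · rintro ⟨⟨⟨h6, h7⟩, h5⟩, h3, h4⟩
        exact ⟨⟨h3, (hG t p h5).2 h4⟩, h5, h6, h7⟩
    have hpr : ∀ p ∈ V, p.Prime := by
      intro p hp
      rw [hV] at hp
      unfold Q285HS.VV Q285HS.IV at hp
      exact (mem_filter.1 (mem_filter.1 hp).1).2
    have hY1 : (1 : ℝ) ≤ Y' := by exact_mod_cast hX₀.trans hY
    have hY0 : (0 : ℝ) < Y' := by linarith
    obtain ⟨ρ, hρ⟩ : ∃ ρ : ℝ, ρ = (Y' : ℝ) ^ (1 / 2 + ε / 2) := ⟨_, rfl⟩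
    have hρ0 : 0 < ρ := by
      rw [hρ]
      positivity
    have hmom : ∀ a : Fin w → ℕ, H41N.JT.wF a ≤ w → |∑ p ∈ V, (H41N.JT.mono a (z t p) - H41N.JT.EG a)| ≤ C * ρ := by
      intro a ha
      have h2 := h1 a ha
      rw [← hV, ← hρ] at h2
      rw [sum_congr rfl fun p hp => by rw [show z t p = fun k => Z p k fun y => (t y : ZMod p) from funext fun k => hz t p (hpr p hp) k]]
      exact h2
    rw [hset, ← hρ]
    refine ⟨fun P hP => ?_, fun i j hij => ?_, fun hcard M r hM hrM θ hθr hθ x => ?_⟩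
    · rw [finsum_mem_coe_finset, mean_eq]
      have h2 := H41N.JT.PB.law (H41N.JT.PB.poly P w hP) le_rfl V (z t) (C * ρ) hmom
      refine h2.trans ?_
      have h3 : 0 ≤ size P := sum_nonneg fun _ _ => abs_nonneg _
      calc size P * (C * ρ) = C * (size P * ρ) := by ring
        _ ≤ C * (1 + C₂ ^ 2 + C₁) * (size P * ρ) := mul_le_mul_of_nonneg_right hCC (by positivity)
        _ = _ := by ring
    · rw [finsum_mem_coe_finset]
      have h2 := H41N.JT.PB.law ((hB i (by omega)).mul (hB j (by omega))) hij V (z t) (C * ρ) hmom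
      rw [H41N.JT.int_orth i j (by omega) (by omega)] at h2
      simp only [exterior_eq]
      refine h2.trans ?_
      have h3 : B i * B j ≤ C₂ ^ 2 := by
        rw [pow_two]
        exact mul_le_mul (hBC i (by omega)) (hBC j (by omega)) (hB j (by omega)).nonneg hC₂0
      calc B i * B j * (C * ρ) ≤ C₂ ^ 2 * (C * ρ) := mul_le_mul_of_nonneg_right h3 (by positivity)
        _ ≤ (1 + C₂ ^ 2 + C₁) * (C * ρ) := mul_le_mul_of_nonneg_right (by linarith) (by positivity)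
        _ = _ := by ring
    · rw [Set.ncard_coe_finset] at hcard
      have hVpos : (0 : ℝ) < V.card := lt_of_lt_of_le (Real.rpow_pos_of_pos hY0 _) hcard
      have hVne : V.Nonempty := by
        rw [← card_pos]
        exact_mod_cast hVpos
      have h2 : ρ = (Y' : ℝ) ^ (-(ε / 2)) * (Y' : ℝ) ^ (1 / 2 + ε) := by
        rw [hρ, ← Real.rpow_add hY0]
        congr 1
        ring
      have h3 : 0 ≤ (Y' : ℝ) ^ (-(ε / 2)) := by positivity
      have h4 := hlin ℕ V (z t) (C * (Y' : ℝ) ^ (-(ε / 2))) hVne (fun a ha => (hmom a ha).trans (by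
        rw [h2]
        calc C * ((Y' : ℝ) ^ (-(ε / 2)) * (Y' : ℝ) ^ (1 / 2 + ε)) ≤ C * ((Y' : ℝ) ^ (-(ε / 2)) * V.card) :=
              mul_le_mul_of_nonneg_left (mul_le_mul_of_nonneg_left hcard h3) (by linarith)
          _ = _ := by ring)) M r hM hrM θ hθr hθ x
      have h5 : proportion (↑V) (fun p => ∑ i : Fin w, θ i * (z t p (i + 1) - centre (i + 1))) x =
          ((V.filter fun p => ∑ i : Fin w, θ i * (z t p (i + 1) - H41N.JT.eta (i + 1)) ≤ x).card : ℝ) / V.card := by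
        unfold proportion
        rw [Set.ncard_coe_finset]
        congr 2
        rw [← Set.ncard_coe_finset]
        congr 1
        ext p
        rw [mem_coe, mem_filter]
        rfl
      rw [h5]
      refine h4.trans ?_
      have h6 : C₁ * (C * (Y' : ℝ) ^ (-(ε / 2))) ≤ C * (1 + C₂ ^ 2 + C₁) * (Y' : ℝ) ^ (-(ε / 2)) := by
        have h7 : 0 ≤ C * (Y' : ℝ) ^ (-(ε / 2)) := by positivity
        nlinarith [sq_nonneg C₂]
      linarith
  have h1 := Set.ncard_le_ncard hsub (Finset.finite_toSet _)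
  rw [Set.ncard_coe_finset] at h1
  have h2 : ((𝒮.biUnion E).card : ℝ) ≤ ∑ S ∈ 𝒮, C * (X₀ : ℝ) ^ (-(ε / 2)) * ∏ i, (L i : ℝ) := by
    refine le_trans (Nat.cast_le.2 card_biUnion_le) ?_
    push_cast
    exact sum_le_sum fun S _ => hE2 S
  rw [sum_const, nsmul_eq_mul] at h2
  have h3 : (0 : ℝ) ≤ 𝒮.card * ((X₀ : ℝ) ^ (-(ε / 2)) * ∏ i, (L i : ℝ)) := by positivity
  calc (({t ∈ box N L | ¬ Typical w ε (C * (1 + C₂ ^ 2 + C₁)) 𝒮 (𝒢 t) X₀ (T ^ κ₀) (z t)} : Set (κ → ℤ)).ncard : ℝ) ≤ ((𝒮.biUnion E).card : ℝ) := by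
        exact_mod_cast h1
    _ ≤ _ := h2
    _ = C * (𝒮.card * ((X₀ : ℝ) ^ (-(ε / 2)) * ∏ i, (L i : ℝ))) := by ring
    _ ≤ C * (1 + C₂ ^ 2 + C₁) * (𝒮.card * ((X₀ : ℝ) ^ (-(ε / 2)) * ∏ i, (L i : ℝ))) := mul_le_mul_of_nonneg_right hCC h3
    _ = _ := by ring

/-- **Part 1.** Members of linear systems on `W`. -/
theorem systems {n : ℕ} {J : Type} [Fintype J] [DecidableEq J] (d e : J → ℕ) (δ : ℕ) (g : J → MvPolynomial (Fin (n + 1)) ℤ)
    (W : Set (MvPolynomial (Fin (n + 1)) ℤ)) (hW : ∀ G ∈ W, ∃ m : ℕ, G.IsHomogeneous m) (hg : ∀ j, (g j).IsHomogeneous (e j))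
    (hδ : ∀ j, e j + d j = δ) (D p₀ w : ℕ) (hD : 2 ≤ D) (C₀ : ℝ) (c : ℕ → ℕ → ℝ)
    (hc : ∀ p : ℕ, p.Prime → p₀ ≤ p → ∀ k ∈ Icc 1 w,
      |(points p k W : ℝ) - (p : ℝ) ^ (k * D)| ≤ C₀ * ((p : ℝ) ^ (k * D) / Real.sqrt p) ∧
      (points p k (W ∪ Set.range g) : ℝ) ≤ C₀ * ((p : ℝ) ^ (k * D) / Real.sqrt p) ∧
      |(points p k (W ∪ Set.range g) : ℝ) + ((points p k W : ℝ) - points p k (W ∪ Set.range g)) / (p : ℝ) ^ k - c k p| ≤
        C₀ * (Real.sqrt p ^ (k * (D - 1)) / Real.sqrt p))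
    (hd : ∀ j, 2 * w ≤ d j + 1) (ε : ℝ) (hε : 0 < ε) (hε1 : ε ≤ 1) :
    ∃ κ₀ : ℝ, 0 < κ₀ ∧ ∃ C : ℝ, AlmostAll w ε κ₀ C (fun _ => Set.univ) fun t : (Σ j : J, Mon n (d j)) → ℤ => trace W D c (member g t) := by
  have hsz : H41N.JT.Szs g W w D p₀ C₀ c :=
    ⟨fun p hp hpp k hk => (hc p hp hpp k hk).1, fun p hp hpp k hk => (hc p hp hpp k hk).2.1, fun p hp hpp k hk => (hc p hp hpp k hk).2.2⟩
  obtain ⟨K, β, hJ⟩ := H41N.JT.jm (dg := d) hD hsz hW hg hδ hd
  refine almost _ hJ (fun _ => ∅) (p₀ := 0) (C₀ := 0) ?_ ε hε hε1 _ _ (fun t p hp k => ?_) (fun t p hp => ?_)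
  · intro p _ _
    simp
  · unfold trace H41N.JT.zz
    rw [points_eq, member_eq, H41N.JT.npts_fam]
  · simp

/-- **Part 2.** Hypersurfaces, primes of good reduction. -/
theorem hypersurfaces (n δ w : ℕ) (hn : 2 ≤ n) (hδ : 1 ≤ δ) (hd : 2 * w ≤ δ + 1) (ε : ℝ) (hε : 0 < ε) (hε1 : ε ≤ 1) :
    ∃ κ₀ : ℝ, 0 < κ₀ ∧ ∃ C : ℝ, AlmostAll w ε κ₀ C (fun t => {p | Good (form t) p})
      fun t : Mon n δ → ℤ => trace ∅ n (fun k p => ∑ i ∈ range n, (p : ℝ) ^ (k * i)) (form t) := by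
  classical
  obtain ⟨K, β, hJ⟩ := H41N.JT.jm (g := fun _ : Unit => (1 : MvPolynomial (Fin (n + 1)) ℤ)) (W := ∅) (dg := fun _ : Unit => δ) (e := fun _ => 0)
    (δ := δ) (w := w) hn (H41N.JT.szs_proj w hn) (fun G hG => absurd hG (Set.notMem_empty G)) (fun _ => isHomogeneous_one _ _) (fun _ => Nat.zero_add _)
    (fun _ => hd)
  have hJ' := hJ.equiv (Equiv.uniqueSigma fun _ : Unit => Mon n δ)
  obtain ⟨Bad, hBad⟩ : ∃ Bad : (p : ℕ) → Set (Mon n δ → ZMod p), Bad = fun p =>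
      {u | ¬ ∀ _ : Fact p.Prime, IsSmooth (map (algebraMap (ZMod p) (AlgebraicClosure (ZMod p))) (form u))} := ⟨_, rfl⟩
  have hform : ∀ (t : Mon n δ → ℤ) (p : ℕ), map (Int.castRingHom (ZMod p)) (form t) = form fun m => (t m : ZMod p) := by
    intro t p
    unfold Pool.Agent.Y722.HS.form
    simp [map_sum, map_prod]
  refine almost _ hJ' Bad (p₀ := δ + 1) (C₀ := (Pool.Agent.Y722.HS.Delta n δ).totalDegree) ?_ ε hε hε1 _ _ (fun t p hp k => ?_) (fun t p hp => ?_)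
  · intro p hp hpp
    have : Fact p.Prime := ⟨hp⟩
    have hp0 : (0 : ℝ) < p := by exact_mod_cast hp.pos
    have h1 := Pool.Agent.Y722.HS.card_bad n δ p (fun h => by
      have := Nat.le_of_dvd (by omega) h
      omega)
    have h2 : (Bad p).ncard ≤ Nat.card {c : Mon n δ → ZMod p // Pool.Agent.Y722.HS.IsBad p c} := by
      have h3 : Nat.card {c : Mon n δ → ZMod p // Pool.Agent.Y722.HS.IsBad p c} = ({c | Pool.Agent.Y722.HS.IsBad p c} : Set (Mon n δ → ZMod p)).ncard := rfl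
      rw [h3]
      refine Set.ncard_le_ncard ?_ (Set.toFinite _)
      intro u hu
      rw [hBad] at hu
      by_contra hnb
      exact hu fun _ => Pool.Agent.Y722.HS.isSmooth_of_not_isBad p hδ u hnb
    have h3 : ((Bad p).ncard : ℝ) ≤ (Nat.card {c : Mon n δ → ZMod p // Pool.Agent.Y722.HS.IsBad p c} : ℝ) := by exact_mod_cast h2
    rw [div_mul_eq_mul_div, le_div_iff₀ hp0]
    refine le_trans (mul_le_mul_of_nonneg_right h3 hp0.le) h1
  · have h1 := H41N.JT.npts_fam (fun _ : Unit => (1 : MvPolynomial (Fin (n + 1)) ℤ)) ∅ p k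
      (fun x : H41N.JT.Idx n (fun _ : Unit => δ) => t x.2)
    have h2 : H41N.JT.fam (fun _ : Unit => (1 : MvPolynomial (Fin (n + 1)) ℤ)) (fun x : H41N.JT.Idx n (fun _ : Unit => δ) => t x.2) = form t := by
      unfold H41N.JT.fam Pool.Agent.Y722.HS.form
      simp
    rw [h2] at h1
    unfold trace H41N.JT.zz
    rw [points_eq, h1]
    rfl
  · rw [hBad]
    show Good (form t) p ↔ ¬ ¬ _
    rw [not_not]
    unfold Good
    refine forall_congr' fun hF => ?_
    have h1 := hform t p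
    have h2 : map (algebraMap (ZMod p) (AlgebraicClosure (ZMod p))) (map (Int.castRingHom (ZMod p)) (form t)) =
        map (algebraMap (ZMod p) (AlgebraicClosure (ZMod p))) (form fun m => (t m : ZMod p)) := congrArg _ h1
    exact iff_of_eq (congrArg IsSmooth h2)

/-- **The Sato-Tate law of random hypersurfaces and random members of linear systems against the characters of small degree.** -/
theorem result :
    -- hypersurfaces of degree `δ` and even dimension in `P ^ n`, and the primes of good reduction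
    (∀ n δ w : ℕ, 2 ≤ n → Odd n → 1 ≤ δ → 2 * w ≤ δ + 1 → ∀ ε : ℝ, 0 < ε → ε ≤ 1 →
      ∃ κ₀ : ℝ, 0 < κ₀ ∧ ∃ C : ℝ, AlmostAll w ε κ₀ C (fun t => {p | Good (form t) p})
        fun t : Mon n δ → ℤ => trace ∅ n (fun k p => ∑ i ∈ range n, (p : ℝ) ^ (k * i)) (form t)) ∧
    -- members `V_t = W ∩ {∑ g_j h_j = 0}` of linear systems, of even dimension `D - 1`, and all primes
    (∀ (n : ℕ) (J : Type) [Fintype J] [DecidableEq J] (d e : J → ℕ) (δ : ℕ) (g : J → MvPolynomial (Fin (n + 1)) ℤ)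
      (W : Set (MvPolynomial (Fin (n + 1)) ℤ)), (∀ G ∈ W, ∃ m : ℕ, G.IsHomogeneous m) → (∀ j, (g j).IsHomogeneous (e j)) → (∀ j, e j + d j = δ) →
      ∀ (D p₀ w : ℕ) (C₀ : ℝ) (c : ℕ → ℕ → ℝ), 2 ≤ D → Odd D →
      (∀ p : ℕ, p.Prime → p₀ ≤ p → ∀ k ∈ Icc 1 w,
        |(points p k W : ℝ) - (p : ℝ) ^ (k * D)| ≤ C₀ * ((p : ℝ) ^ (k * D) / Real.sqrt p) ∧
        (points p k (W ∪ Set.range g) : ℝ) ≤ C₀ * ((p : ℝ) ^ (k * D) / Real.sqrt p) ∧
        |(points p k (W ∪ Set.range g) : ℝ) + ((points p k W : ℝ) - points p k (W ∪ Set.range g)) / (p : ℝ) ^ k - c k p| ≤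
          C₀ * (Real.sqrt p ^ (k * (D - 1)) / Real.sqrt p)) →
      (∀ j, 2 * w ≤ d j + 1) → ∀ ε : ℝ, 0 < ε → ε ≤ 1 →
      ∃ κ₀ : ℝ, 0 < κ₀ ∧ ∃ C : ℝ, AlmostAll w ε κ₀ C (fun _ => Set.univ) fun t : (Σ j : J, Mon n (d j)) → ℤ => trace W D c (member g t)) :=
  ⟨fun n δ w hn _ hδ hd ε hε hε1 => hypersurfaces n δ w hn hδ hd ε hε hε1,
    fun _ _ _ _ d e δ g W hW hg hδ D p₀ w C₀ c hD _ hc hd ε hε hε1 => systems d e δ g W hW hg hδ D p₀ w hD C₀ c hc hd ε hε hε1⟩

end Pool.Agent.Results.MP_32ceeb_nt.JointPowerTraces
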