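import Pool.Agent.H40SY.JL

/-!
# The joint distribution of the Frobenius classes of an arbitrary variety and of almost all number fields

`K` is a number field, `ω_0, ..., ω_(g-1)` are elements of `𝓞_K` such that `1` is in the group generated
by them (for instance an integral basis), and the vector `c` of the integers `c_(i,j)`, `i < n`, `j < g`,
gives the monic polynomial `f_c = x ^ n + ∑_(i < n) (∑_j c_(i,j) ω_j) x ^ i` over `𝓞_K` and the variety
`Y_c = Spec K[x] / (f_c)` of dimension `0`.

Let `X` be a smooth projective variety over `K`, and `x_v` the classes of the question for `X` (the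
theorem is about arbitrary sequences `x_v` in a set `𝒳`).  The class of the Frobenius at `v` for `X × Y_c`,
whose cohomology is `H(X) ⊗ H^0(Y_c)`, and for all varieties made from `X` and `Y_c`, like the
restriction of scalars of `X` from `K[x] / (f_c)` to `K`, is given by the pair of `x_v` and of the
permutation `π_v` of the roots of `f_c` given by the Frobenius at `v`.  The theorem: for almost all `c` the
Galois group of `f_c` is the symmetric group, and the pairs `(x_v, π_v)` with `q_v ≤ T` are
equidistributed over the conjugacy classes of the symmetric group, with an error of the size of the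
square root, for all `T` up to a power of the size of `c`.  So `x_v` and `π_v` are independent, and the
law for `X × Y_c` is the product of the law for `X` and the uniform law on the symmetric group.

The definitions are in `Pool.Agent.H40SY.Defs`, `Pool.Agent.H40SY.JDefs` and `Pool.Agent.W353.AT.Defs`
(`IsFrobeniusElement`).

Method: high moments of local functions over the family (engine of helper647); the class functions on the
symmetric group are combinations of permutation characters of Young subgroups, which count the
factorizations of `f_c` modulo `v`.
-/

set_option autoImplicit false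

namespace Pool.Agent.Results.MP_32ceeb_nt.ProductsWithNumberFields

open NumberField IsDedekindDomain Pool.Agent.H40SY

open Classical in
/-- **The joint law.**  For all `n`, `δ > 0`, `A`, `B` there are `E` and `y₀` such that for all sequences
`x_v` in a set `𝒳`, all sequences `F j` of test functions on the pairs of a point of `𝒳` and a conjugacy
class of the symmetric group, all finite sets `R j` of primes, all `Q`, all `y ≥ y₀` and all finite sets `S`
of vectors which are well distributed modulo the numbers `q ≤ Q` (for instance boxes with side at least
`2 n g Q ^ 2`, see `Pool.Agent.H40SY.wd_box`) the following holds for all `c` in `S` with at most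
`|S| / y ^ A` exceptions: if `y ^ E ≤ Q`, then the Galois group of the polynomial `f_c` is the symmetric
group, and for all `T ≥ y` with `T ^ E ≤ Q` and all `j < T ^ B` the sum of `F j (x_v, π_v)` over the primes
`v` with `q_v ≤ T` outside `R j` modulo which `f_c` is separable is the sum of the mean values of
`F j (x_v, ·)` over the symmetric group, up to `T ^ (1/2 + δ)`. -/
theorem result (K : Type) [Field K] [NumberField K] (n g : ℕ) (ω : Fin g → 𝓞 K)
    (hω : (1 : 𝓞 K) ∈ Submodule.span ℤ (Set.range ω)) (δ : ℝ) (hδ : 0 < δ) (A B : ℕ) :
    ∃ E y₀ : ℕ, ∀ (𝒳 : Type) (x : HeightOneSpectrum (𝓞 K) → 𝒳)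
      (R : ℕ → Finset (HeightOneSpectrum (𝓞 K))) (F : ℕ → TestFunction 𝒳 n) (Q y : ℕ), y₀ ≤ y →
      ∀ S : Finset (Fin n → Fin g → ℤ), WellDistributed Q S →
        ((S.filter fun c => ¬ JointLaw ω δ B x R F E Q y c).card : ℝ) ≤ 1 / (y : ℝ) ^ A * S.card :=
  joint_main ω hω δ hδ A B

end Pool.Agent.Results.MP_32ceeb_nt.ProductsWithNumberFields
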